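import Pool.Agent.H522R3.SW.Diag

/-!
# Eight-wise independent groups of order `32 r ^ 4`
-/

namespace Pool.Agent.H522R3.SW

theorem bch_aux {K ι : Type} [Field K] [CharP K 2] [DecidableEq ι] (B : Finset ι) (p : ι → K)
    (hp : Set.InjOn p B) (hB : B.Nonempty) (hc : B.card ≤ 8) (h0 : ∑ _v ∈ B, (1 : K) = 0)
    (hodd : ∀ i < 4, ∑ v ∈ B, p v ^ (2 * i + 1) = 0) : False := by
  have hsq : ∀ j, ∑ v ∈ B, p v ^ j = 0 → ∑ v ∈ B, p v ^ (2 * j) = 0 := by
    intro j hj
    have h1 := sum_pow_char 2 B (fun v => p v ^ j)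
    rw [hj, zero_pow two_ne_zero] at h1
    rw [h1]
    apply Finset.sum_congr rfl
    intro v _
    rw [← pow_mul, mul_comm]
  have hall : ∀ j < 8, ∑ v ∈ B, p v ^ j = 0 := by
    have e1 := hodd 0 (by norm_num)
    have e3 := hodd 1 (by norm_num)
    have e5 := hodd 2 (by norm_num)
    have e7 := hodd 3 (by norm_num)
    have e2 := hsq 1 e1
    have e4 := hsq 2 e2
    have e6 := hsq 3 e3
    intro j hj
    interval_cases j
    · simpa using h0
    · exact e1
    · exact e2
    · exact e3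
    · exact e4
    · exact e5
    · exact e6
    · exact e7
  obtain ⟨v₀, hv₀⟩ := hB
  set Q := Lagrange.basis B p v₀ with hQ
  have hdeg : Q.natDegree < 8 := by
    have h1 := Lagrange.degree_basis hp hv₀
    have h2 : Q.natDegree = B.card - 1 := Polynomial.natDegree_eq_of_degree_eq_some h1
    have h3 : 0 < B.card := Finset.card_pos.mpr ⟨v₀, hv₀⟩
    omega
  have h1 : ∑ v ∈ B, Q.eval (p v) = 1 := by
    rw [Finset.sum_eq_single v₀]
    · exact Lagrange.eval_basis_self hp hv₀
    · intro v hv hne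
      exact Lagrange.eval_basis_of_ne (Ne.symm hne) hv
    · intro h; exact absurd hv₀ h
  have h2 : ∑ v ∈ B, Q.eval (p v) = 0 := by
    calc ∑ v ∈ B, Q.eval (p v) = ∑ v ∈ B, ∑ i ∈ Finset.range 8, Q.coeff i * p v ^ i :=
          Finset.sum_congr rfl fun v _ => Polynomial.eval_eq_sum_range' hdeg _
      _ = ∑ i ∈ Finset.range 8, Q.coeff i * ∑ v ∈ B, p v ^ i := by
          rw [Finset.sum_comm]
          exact Finset.sum_congr rfl fun i _ => by rw [Finset.mul_sum]
      _ = 0 := by
          apply Finset.sum_eq_zero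
          intro i hi
          rw [hall i (Finset.mem_range.mp hi), mul_zero]
  rw [h1] at h2
  exact one_ne_zero h2

theorem exists_rich (r : ℕ) (hr : 1 ≤ r) :
    ∃ Γ : AddSubgroup (Fin r → ZMod 2), Nat.card Γ ≤ 32 * r ^ 4 ∧ Rich 8 Γ := by
  classical
  -- the field
  obtain ⟨e, he0, hre, her⟩ : ∃ e : ℕ, e ≠ 0 ∧ r ≤ 2 ^ e ∧ 2 ^ e ≤ 2 * r := by
    rcases Nat.lt_or_ge r 2 with h | h
    · exact ⟨1, one_ne_zero, by omega, by omega⟩
    · refine ⟨Nat.clog 2 r, (Nat.clog_pos (by norm_num) h).ne', Nat.le_pow_clog (by norm_num) r,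
        ?_⟩
      have h1 := Nat.pow_pred_clog_lt_self (b := 2) (by norm_num) (x := r) (by omega)
      have h2 : Nat.clog 2 r = (Nat.clog 2 r).pred + 1 :=
        (Nat.succ_pred_eq_of_pos (Nat.clog_pos (by norm_num) h)).symm
      rw [h2, pow_succ]
      omega
  let K := GaloisField 2 e
  have hcard : Nat.card K = 2 ^ e := GaloisField.card 2 e he0
  have : Finite K := Nat.finite_of_card_ne_zero (by rw [hcard]; positivity)
  have : Fintype K := Fintype.ofFinite K
  have hcard' : Fintype.card K = 2 ^ e := by rw [← Nat.card_eq_fintype_card, hcard]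
  obtain ⟨pt, hpt⟩ : ∃ f : Fin r → K, Function.Injective f := by
    have : Fintype.card (Fin r) ≤ Fintype.card K := by
      rw [Fintype.card_fin, hcard']
      exact hre
    obtain ⟨f⟩ := Function.Embedding.nonempty_of_card_le this
    exact ⟨f, f.injective⟩
  obtain ⟨φ, hφ⟩ : ∃ φ : Module.Dual (ZMod 2) K, φ 1 = 1 := by
    by_contra hcon
    push Not at hcon
    have h1 : ∀ φ : Module.Dual (ZMod 2) K, φ 1 = 0 := by
      intro φ
      rcases z2_cases (φ 1) with h | h
      · exact h
      · exact absurd h (hcon φ)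
    exact one_ne_zero ((Module.forall_dual_apply_eq_zero_iff (ZMod 2) (1 : K)).mp h1)
  let Φ : (ZMod 2 × (Fin 4 → K)) →+ (Fin r → ZMod 2) :=
    { toFun := fun c v => c.1 + φ (∑ i, c.2 i * pt v ^ (2 * (i : ℕ) + 1))
      map_zero' := by
        funext v
        simp
      map_add' := by
        intro c c'
        funext v
        simp only [Prod.fst_add, Prod.snd_add, Pi.add_apply, add_mul, Finset.sum_add_distrib,
          map_add]
        abel }
  refine ⟨Φ.range, ?_, ?_⟩
  · have h1 : Nat.card Φ.range ≤ Nat.card (ZMod 2 × (Fin 4 → K)) :=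
      Nat.card_le_card_of_surjective Φ.rangeRestrict Φ.rangeRestrict_surjective
    refine h1.trans ?_
    rw [Nat.card_eq_fintype_card, Fintype.card_prod, ZMod.card, Fintype.card_fun,
      Fintype.card_fin, hcard']
    calc 2 * (2 ^ e) ^ 4 ≤ 2 * (2 * r) ^ 4 :=
          Nat.mul_le_mul_left _ (Nat.pow_le_pow_left her 4)
      _ = 32 * r ^ 4 := by ring
  · intro A hA y
    by_contra hcon
    push Not at hcon
    -- the restrictions to `A`
    let W : Submodule (ZMod 2) (A → ZMod 2) :=
      AddSubgroup.toZModSubmodule 2 (Φ.range.map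
        (AddMonoidHom.pi fun c : A => Pi.evalAddMonoidHom (fun _ : Fin r => ZMod 2) c.1))
    have hW : ∀ x ∈ Φ.range, (fun c : A => x c.1) ∈ W := by
      intro x hx
      exact ⟨x, hx, rfl⟩
    have hyW : (fun c : A => y c.1) ∉ W := by
      rintro ⟨x, hx, hxy⟩
      obtain ⟨c, hc, hne⟩ := hcon x hx
      exact hne (congrFun hxy ⟨c, hc⟩)
    obtain ⟨f, hf1, hf2⟩ := Submodule.exists_dual_map_eq_bot_of_notMem hyW inferInstance
    have hf0 : ∀ x ∈ W, f x = 0 := by
      intro x hx
      have : f x ∈ W.map f := Submodule.mem_map_of_mem hx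
      rw [hf2] at this
      exact (Submodule.mem_bot _).mp this
    have hfs : ∀ x : A → ZMod 2, f x = ∑ i, x i * f (Pi.single i 1) := by
      intro x
      conv_lhs => rw [pi_eq_sum_univ' x]
      rw [map_sum]
      apply Finset.sum_congr rfl
      intro i _
      rw [map_smul, smul_eq_mul]
    let B : Finset A := Finset.univ.filter fun v => f (Pi.single v 1) = 1
    have hfB : ∀ x : A → ZMod 2, f x = ∑ v ∈ B, x v := by
      intro x
      rw [hfs, Finset.sum_filter]
      apply Finset.sum_congr rfl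
      intro v _
      rcases z2_cases (f (Pi.single v 1)) with h | h
      · rw [h]; simp
      · rw [h]; simp
    have hBn : B.Nonempty := by
      rw [Finset.nonempty_iff_ne_empty]
      intro hBe
      apply hf1
      rw [hfB, hBe, Finset.sum_empty]
    have hBc : B.card ≤ 8 := by
      refine (Finset.card_le_univ _).trans ?_
      rw [Fintype.card_coe]
      exact hA
    have hrel : ∀ c : ZMod 2 × (Fin 4 → K), ∑ v ∈ B, Φ c v.1 = 0 := by
      intro c
      rw [← hfB (fun v : A => Φ c v.1)]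
      exact hf0 _ (hW _ ⟨c, rfl⟩)
    have h0 : ∑ _v ∈ B, (1 : K) = 0 := by
      have h1 := hrel (1, 0)
      have h2 : ∀ v : Fin r, Φ (1, 0) v = 1 := by
        intro v
        show (1 : ZMod 2) + φ (∑ i : Fin 4, (0 : Fin 4 → K) i * pt v ^ (2 * (i : ℕ) + 1)) = 1
        simp
      rw [Finset.sum_congr rfl (fun v _ => h2 v.1), Finset.sum_const, nsmul_eq_mul,
        mul_one] at h1
      rw [Finset.sum_const, nsmul_eq_mul, mul_one]
      have h3 := (ZMod.natCast_eq_zero_iff _ _).mp h1
      exact (CharP.cast_eq_zero_iff K 2 _).mpr h3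
    have hodd : ∀ i < 4, ∑ v ∈ B, pt v.1 ^ (2 * i + 1) = 0 := by
      intro i hi
      by_contra hne
      set S := ∑ v ∈ B, pt v.1 ^ (2 * i + 1) with hS
      have h1 := hrel (0, Pi.single ⟨i, hi⟩ S⁻¹)
      have h2 : ∀ v : Fin r, Φ (0, Pi.single ⟨i, hi⟩ S⁻¹) v = φ (S⁻¹ * pt v ^ (2 * i + 1)) := by
        intro v
        show (0 : ZMod 2) + φ (∑ j : Fin 4, (Pi.single ⟨i, hi⟩ S⁻¹ : Fin 4 → K) j *
          pt v ^ (2 * (j : ℕ) + 1)) = _
        rw [zero_add, Finset.sum_eq_single ⟨i, hi⟩]
        · rw [Pi.single_eq_same]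
        · intro j _ hj
          rw [Pi.single_eq_of_ne hj, zero_mul]
        · simp
      rw [Finset.sum_congr rfl (fun v _ => h2 v.1), ← map_sum, ← Finset.mul_sum, ← hS,
        inv_mul_cancel₀ hne, hφ] at h1
      exact one_ne_zero h1
    exact bch_aux B (fun v => pt v.1) (fun v _ w _ h => Subtype.ext (hpt h)) hBn hBc h0 hodd

end Pool.Agent.H522R3.SW
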