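import Pool.Agent.H522R3.SW.Main

/-!
# Constructions of symmetric circuits
-/

namespace Pool.Agent.H522R3.SW

open MvPolynomial Pool.Agent.H522R3.LS

/-- The permutation of the index set given by a permutation of the `2 r` blocks. -/
def bl {r s : ℕ} {Z : Type} (σ : Equiv.Perm (Fin r × ZMod 2)) : Ix r s Z → Ix r s Z
  | .inl (v, a, i) => .inl ((σ (v, a)).1, (σ (v, a)).2, i)
  | .inr z => .inr z

section average

variable {r s : ℕ} {Z F G : Type} [Field F] [Fintype G] [Fintype Z]

omit [Fintype Z] in
theorem sw_invol (x : Fin r → ZMod 2) (p : Ix r s Z) : sw x (sw x p) = p := by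
  rw [sw_sw, add_self_fun, sw_zero]

/-- the exchange as a permutation -/
def swP (x : Fin r → ZMod 2) : Equiv.Perm (Ix r s Z) where
  toFun := sw x
  invFun := sw x
  left_inv := sw_invol x
  right_inv := sw_invol x

omit [Fintype G] in
theorem rename_prodEntry (x : Pat r) (p q : Ix r s Z) :
    rename (swV x) (prodEntry F (sw x.1 p) (sw x.2.2 q)) = prodEntry F p q := by
  unfold prodEntry
  rw [map_sum, ← Equiv.sum_comp (swP x.2.1)]
  apply Finset.sum_congr rfl
  intro k _
  rw [map_mul, rename_X, rename_X]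
  simp only [sand, sw_invol]
  show X (Sum.inl (p, sw x.2.1 (sw x.2.1 k))) * X (Sum.inr (sw x.2.1 (sw x.2.1 k), q)) = _
  rw [sw_invol]

/-- the nodes of the averaged circuit -/
abbrev Av (r s : ℕ) (Z G : Type) (Γ : AddSubgroup (Pat r)) : Type :=
  (Γ × G) ⊕ ((Ix r s Z × Ix r s Z) ⊕ ((Ix r s Z × Ix r s Z) ⊕ Unit))

/-- the averaged circuit -/
noncomputable def avC (Γ : AddSubgroup (Pat r)) [Fintype Γ]
    (C : Circ (Vr r s Z) F G) (out : Ix r s Z → Ix r s Z → G) :
    Circ (Vr r s Z) F (Av r s Z G Γ) where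
  lab := fun y => match y with
    | .inl (x, g) => (C.lab g).relabel (swV x.1)
    | .inr (.inl _) => .add
    | .inr (.inr (.inl _)) => .mul
    | .inr (.inr (.inr _)) => .const ((Fintype.card Γ : F)⁻¹)
  args := fun y => match y with
    | .inl (x, g) => (C.args g).map fun h => Sum.inl (x, h)
    | .inr (.inl (p, q)) => (Finset.univ : Finset Γ).val.map fun x =>
        Sum.inl (x, out (sw x.1.1 p) (sw x.1.2.2 q))
    | .inr (.inr (.inl (p, q))) => {Sum.inr (.inl (p, q)), Sum.inr (.inr (.inr ()))}
    | .inr (.inr (.inr _)) => 0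
  num := fun y => match y with
    | .inl (_, g) => C.num g
    | .inr (.inl _) => Finset.univ.sup C.num + 1
    | .inr (.inr (.inl _)) => Finset.univ.sup C.num + 2
    | .inr (.inr (.inr _)) => 0
  num_lt := by
    rintro (⟨x, g⟩ | ⟨p, q⟩ | ⟨p, q⟩ | u) h hh
    · simp only [Multiset.mem_map] at hh
      obtain ⟨h', hh', rfl⟩ := hh
      exact C.num_lt g h' hh'
    · simp only [Multiset.mem_map] at hh
      obtain ⟨x, _, rfl⟩ := hh
      exact Nat.lt_succ_of_le (Finset.le_sup (f := C.num) (Finset.mem_univ _))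
    · simp only [Multiset.insert_eq_cons, Multiset.mem_cons, Multiset.mem_singleton] at hh
      rcases hh with rfl | rfl
      · exact Nat.lt_succ_self _
      · exact Nat.succ_pos _
    · simp at hh

/-- the values of the averaged circuit -/
noncomputable def avV (Γ : AddSubgroup (Pat r)) [Fintype Γ]
    (val : G → MvPolynomial (Vr r s Z) F) : Av r s Z G Γ → MvPolynomial (Vr r s Z) F
  | .inl (x, g) => rename (swV x.1) (val g)
  | .inr (.inl (p, q)) => MvPolynomial.C (Fintype.card Γ : F) * prodEntry F p q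
  | .inr (.inr (.inl (p, q))) => prodEntry F p q
  | .inr (.inr (.inr _)) => MvPolynomial.C ((Fintype.card Γ : F)⁻¹)

theorem avC_val (Γ : AddSubgroup (Pat r)) [Fintype Γ]
    (hΓ : (Fintype.card Γ : F) ≠ 0) {C : Circ (Vr r s Z) F G}
    {val : G → MvPolynomial (Vr r s Z) F} {out : Ix r s Z → Ix r s Z → G}
    (h : Computes C val out) : IsVal (avC Γ C out) (avV Γ val) := by
  rintro (⟨x, g⟩ | ⟨p, q⟩ | ⟨p, q⟩ | u)
  · show rename (swV x.1) (val g) = _
    rw [h.1 g]
    simp only [avC]
    cases C.lab g with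
    | var i => simp [Lab.relabel]
    | const c => simp [Lab.relabel]
    | add =>
      simp only [Lab.relabel]
      rw [map_multiset_sum, Multiset.map_map, Multiset.map_map]
      rfl
    | mul =>
      simp only [Lab.relabel]
      rw [map_multiset_prod, Multiset.map_map, Multiset.map_map]
      rfl
  · show MvPolynomial.C (Fintype.card Γ : F) * prodEntry F p q = _
    simp only [avC]
    rw [Multiset.map_map]
    show _ = ∑ x : Γ, rename (swV x.1) (val (out (sw x.1.1 p) (sw x.1.2.2 q)))
    have h1 : ∀ x : Γ, rename (swV x.1) (val (out (sw x.1.1 p) (sw x.1.2.2 q))) =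
        prodEntry F p q := by
      intro x
      rw [h.2, rename_prodEntry]
    rw [Finset.sum_congr rfl fun x _ => h1 x, Finset.sum_const, Finset.card_univ,
      nsmul_eq_mul]
    simp
  · show prodEntry F p q = _
    simp only [avC]
    simp only [Multiset.insert_eq_cons, Multiset.map_cons, Multiset.map_singleton,
      Multiset.prod_cons, Multiset.prod_singleton, avV]
    have h1 : (MvPolynomial.C (Fintype.card Γ : F) : MvPolynomial (Vr r s Z) F) *
        MvPolynomial.C ((Fintype.card Γ : F)⁻¹) = 1 := by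
      rw [← MvPolynomial.C_mul, mul_inv_cancel₀ hΓ, MvPolynomial.C_1]
    calc prodEntry F p q = (MvPolynomial.C (Fintype.card Γ : F) *
          MvPolynomial.C ((Fintype.card Γ : F)⁻¹)) * prodEntry F p q := by rw [h1, one_mul]
      _ = _ := by ring
  · rfl

theorem gates_avC (Γ : AddSubgroup (Pat r)) [Fintype Γ] (C : Circ (Vr r s Z) F G)
    (out : Ix r s Z → Ix r s Z → G) :
    gates (avC Γ C out) = Fintype.card Γ * gates C + 2 * Fintype.card (Ix r s Z) ^ 2 := by
  classical
  unfold gates
  have hset : (Finset.univ.filter fun g : Av r s Z G Γ =>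
      (avC Γ C out).lab g = .add ∨ (avC Γ C out).lab g = .mul) =
      ((Finset.univ : Finset Γ) ×ˢ
        (Finset.univ.filter fun g => C.lab g = .add ∨ C.lab g = .mul)).disjSum
      ((Finset.univ : Finset (Ix r s Z × Ix r s Z)).disjSum
        ((Finset.univ : Finset (Ix r s Z × Ix r s Z)).disjSum ∅)) := by
    ext x
    rcases x with ⟨β, g⟩ | ⟨p, q⟩ | ⟨p, q⟩ | u
    · simp only [avC, Finset.mem_filter, Finset.mem_univ, true_and, Finset.inl_mem_disjSum,
        Finset.mem_product]
      cases C.lab g <;> simp [Lab.relabel]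
    · simp [avC]
    · simp [avC]
    · simp [avC]
  rw [hset, Finset.card_disjSum, Finset.card_product, Finset.card_disjSum,
    Finset.card_disjSum, Finset.card_empty, Finset.card_univ, Finset.card_univ,
    Fintype.card_prod]
  ring

/-- the automorphism of the averaged circuit -/
def avP (Γ : AddSubgroup (Pat r)) (G : Type) (z : Γ) :
    Equiv.Perm (Av r s Z G Γ) :=
  Equiv.sumCongr (Equiv.prodCongr (Equiv.addRight z) (Equiv.refl G))
    (Equiv.sumCongr (Equiv.prodCongr (swP z.1.1) (swP z.1.2.2))
      (Equiv.sumCongr (Equiv.prodCongr (swP z.1.1) (swP z.1.2.2)) (Equiv.refl Unit)))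

omit [Fintype Z] in
theorem avC_symm (Γ : AddSubgroup (Pat r)) [Fintype Γ] (C : Circ (Vr r s Z) F G)
    (out : Ix r s Z → Ix r s Z → G) (z : Pat r) (hz : z ∈ Γ) :
    Symm (avC Γ C out) (fun p q => Sum.inr (.inr (.inl (p, q)))) (sw z.1) (sw z.2.1)
      (sw z.2.2) := by
  refine ⟨avP Γ G ⟨z, hz⟩, ?_, fun p q => rfl⟩
  rintro (⟨x, g⟩ | ⟨p, q⟩ | ⟨p, q⟩ | u)
  · constructor
    · show (C.lab g).relabel (swV (x.1 + z)) = ((C.lab g).relabel (swV x.1)).relabel (swV z)
      rw [relabel_relabel, swV_comp]
    · show ((C.args g).map fun h => Sum.inl ((x + ⟨z, hz⟩ : Γ), h)) =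
        ((C.args g).map fun h => Sum.inl (x, h)).map (avP Γ G ⟨z, hz⟩)
      rw [Multiset.map_map]
      rfl
  · constructor
    · rfl
    · show ((Finset.univ : Finset Γ).val.map fun x : Γ =>
          (Sum.inl (x, out (sw x.1.1 (sw z.1 p)) (sw x.1.2.2 (sw z.2.2 q))) :
            Av r s Z G Γ)) =
        ((Finset.univ : Finset Γ).val.map fun x : Γ =>
          (Sum.inl (x, out (sw x.1.1 p) (sw x.1.2.2 q)) : Av r s Z G Γ)).map
            (avP Γ G ⟨z, hz⟩)
      rw [Multiset.map_map]
      have h1 : (Finset.univ : Finset Γ).val.map (Equiv.addRight (⟨z, hz⟩ : Γ)) =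
          (Finset.univ : Finset Γ).val := by
        have h2 := congrArg Finset.val (Finset.map_univ_equiv (Equiv.addRight (⟨z, hz⟩ : Γ)))
        rwa [Finset.map_val] at h2
      conv_lhs => rw [← h1]
      rw [Multiset.map_map]
      apply Multiset.map_congr rfl
      intro x _
      show (Sum.inl (x + ⟨z, hz⟩, out (sw (x.1.1 + z.1) (sw z.1 p))
        (sw (x.1.2.2 + z.2.2) (sw z.2.2 q))) : Av r s Z G Γ) =
          Sum.inl (x + ⟨z, hz⟩, out (sw x.1.1 p) (sw x.1.2.2 q))
      have h3 : ∀ (y w : Fin r → ZMod 2) (p : Ix r s Z), sw (y + w) (sw w p) = sw y p := by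
        intro y w p
        rw [sw_sw]
        congr 1
        rw [add_comm, add_assoc, add_self_fun, add_zero]
      rw [h3, h3]
  · constructor
    · rfl
    · rfl
  · constructor
    · rfl
    · rfl

omit [Fintype G] [Fintype Z] in
theorem card_group_ne_zero (h2 : (2 : F) ≠ 0) (Γ : AddSubgroup (Pat r))
    [Fintype Γ] : (Fintype.card Γ : F) ≠ 0 := by
  have h1 : Nat.card Γ ∣ Nat.card (Pat r) := AddSubgroup.card_addSubgroup_dvd_card Γ
  have h3 : Nat.card (Pat r) = 2 ^ (r + (r + r)) := by
    rw [Nat.card_eq_fintype_card, Fintype.card_prod, Fintype.card_prod, Fintype.card_fun,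
      Fintype.card_fin, ZMod.card, pow_add, pow_add]
  rw [h3] at h1
  obtain ⟨j, _, hj⟩ := (Nat.dvd_prime_pow Nat.prime_two).mp h1
  rw [Nat.card_eq_fintype_card] at hj
  rw [hj]
  push_cast
  exact pow_ne_zero _ h2

end average

section upper

variable {r s : ℕ} {F G : Type} [Field F] [Fintype G]

/-- the blocks -/
abbrev Bk (r : ℕ) : Type := Fin r × ZMod 2

def mk (b : Bk r) (i : Fin s) : Ix r s Empty := .inl (b.1, b.2, i)

def blk : Ix r s Empty → Bk r
  | .inl (v, a, _) => (v, a)

def loc : Ix r s Empty → Fin s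
  | .inl (_, _, i) => i

theorem mk_blk (p : Ix r s Empty) : mk (blk p) (loc p) = p := by
  rcases p with ⟨v, a, i⟩ | z
  · rfl
  · exact z.elim

/-- the index set as blocks times positions -/
def ixE : Ix r s Empty ≃ Bk r × Fin s where
  toFun p := (blk p, loc p)
  invFun x := mk x.1 x.2
  left_inv := mk_blk
  right_inv _ := rfl

def emb (β : Bk r × Bk r × Bk r) : V2 s → Vr r s Empty
  | .inl (i, k) => .inl (mk β.1 i, mk β.2.1 k)
  | .inr (k, j) => .inr (mk β.2.1 k, mk β.2.2 j)

/-- the nodes of the block circuit -/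
abbrev Nd (r s : ℕ) (G : Type) : Type :=
  ((Bk r × Bk r × Bk r) × G) ⊕ (Ix r s Empty × Ix r s Empty)

/-- the block circuit -/
def blockC (C : Circ (V2 s) F G) (out : Fin s → Fin s → G) :
    Circ (Vr r s Empty) F (Nd r s G) where
  lab := fun x => match x with
    | .inl (β, g) => (C.lab g).relabel (emb β)
    | .inr _ => .add
  args := fun x => match x with
    | .inl (β, g) => (C.args g).map fun h => Sum.inl (β, h)
    | .inr (p, q) => (Finset.univ : Finset (Bk r)).val.map fun b =>
        Sum.inl ((blk p, b, blk q), out (loc p) (loc q))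
  num := fun x => match x with
    | .inl (_, g) => C.num g
    | .inr _ => Finset.univ.sup C.num + 1
  num_lt := by
    rintro (⟨β, g⟩ | ⟨p, q⟩) h hh
    · simp only [Multiset.mem_map] at hh
      obtain ⟨h', hh', rfl⟩ := hh
      exact C.num_lt g h' hh'
    · simp only [Multiset.mem_map] at hh
      obtain ⟨b, _, rfl⟩ := hh
      exact Nat.lt_succ_of_le (Finset.le_sup (f := C.num) (Finset.mem_univ _))

/-- the values of the block circuit -/
noncomputable def blockV (val : G → MvPolynomial (V2 s) F) :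
    Nd r s G → MvPolynomial (Vr r s Empty) F
  | .inl (β, g) => rename (emb β) (val g)
  | .inr (p, q) => prodEntry F p q

theorem blockC_val {C : Circ (V2 s) F G} {val : G → MvPolynomial (V2 s) F}
    {out : Fin s → Fin s → G} (h : Computes C val out) :
    IsVal (blockC (r := r) C out) (blockV val) := by
  rintro (⟨β, g⟩ | ⟨p, q⟩)
  · show rename (emb β) (val g) = _
    rw [h.1 g]
    simp only [blockC]
    cases C.lab g with
    | var i => simp [Lab.relabel]
    | const c => simp [Lab.relabel]
    | add =>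
      simp only [Lab.relabel]
      rw [map_multiset_sum, Multiset.map_map, Multiset.map_map]
      rfl
    | mul =>
      simp only [Lab.relabel]
      rw [map_multiset_prod, Multiset.map_map, Multiset.map_map]
      rfl
  · show prodEntry F p q = _
    simp only [blockC]
    rw [Multiset.map_map]
    show prodEntry F p q = ∑ b : Bk r, rename (emb (blk p, b, blk q)) (val (out (loc p) (loc q)))
    unfold prodEntry
    rw [← Equiv.sum_comp (ixE (r := r) (s := s)).symm, Fintype.sum_prod_type]
    apply Finset.sum_congr rfl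
    intro b _
    rw [h.2]
    unfold prodEntry
    rw [map_sum]
    apply Finset.sum_congr rfl
    intro k _
    rw [map_mul, rename_X, rename_X]
    simp only [emb, mk_blk]
    rfl

omit [Field F] in
theorem gates_blockC (C : Circ (V2 s) F G) (out : Fin s → Fin s → G) :
    gates (blockC (r := r) C out) = (2 * r) ^ 3 * gates C + (2 * r * s) ^ 2 := by
  classical
  unfold gates
  have hset : (Finset.univ.filter fun g : Nd r s G =>
      (blockC (r := r) C out).lab g = .add ∨ (blockC (r := r) C out).lab g = .mul) =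
      (Finset.univ ×ˢ (Finset.univ.filter fun g => C.lab g = .add ∨ C.lab g = .mul)).disjSum
        Finset.univ := by
    ext x
    rcases x with ⟨β, g⟩ | ⟨p, q⟩
    · simp only [blockC, Finset.mem_filter, Finset.mem_univ, true_and, Finset.inl_mem_disjSum,
        Finset.mem_product]
      cases C.lab g <;> simp [Lab.relabel]
    · simp [blockC]
  rw [hset, Finset.card_disjSum, Finset.card_product]
  simp only [Finset.card_univ, Fintype.card_prod, Fintype.card_sum, Fintype.card_fin, ZMod.card,
    Fintype.card_empty]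
  ring

/-- block permutations of the index set -/
def blP (σ : Equiv.Perm (Bk r)) : Equiv.Perm (Ix r s Empty) where
  toFun := bl σ
  invFun := bl σ.symm
  left_inv := by
    rintro (⟨v, a, i⟩ | z)
    · simp [bl]
    · exact z.elim
  right_inv := by
    rintro (⟨v, a, i⟩ | z)
    · simp [bl]
    · exact z.elim

def blockP (G : Type) (σ τ ρ : Equiv.Perm (Bk r)) : Equiv.Perm (Nd r s G) :=
  Equiv.sumCongr (Equiv.prodCongr (Equiv.prodCongr σ (Equiv.prodCongr τ ρ)) (Equiv.refl G))
    (Equiv.prodCongr (blP σ) (blP ρ))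

theorem blk_bl (σ : Equiv.Perm (Bk r)) (p : Ix r s Empty) : blk (bl σ p) = σ (blk p) := by
  rcases p with ⟨v, a, i⟩ | z
  · rfl
  · exact z.elim

theorem loc_bl (σ : Equiv.Perm (Bk r)) (p : Ix r s Empty) : loc (bl σ p) = loc p := by
  rcases p with ⟨v, a, i⟩ | z
  · rfl
  · exact z.elim

omit [Field F] in
theorem blockC_symm (C : Circ (V2 s) F G) (out : Fin s → Fin s → G)
    (σ τ ρ : Equiv.Perm (Bk r)) :
    Symm (blockC (r := r) C out) (fun p q => Sum.inr (p, q)) (bl σ) (bl τ) (bl ρ) := by
  refine ⟨blockP G σ τ ρ, ?_, fun p q => rfl⟩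
  rintro (⟨⟨b1, b2, b3⟩, g⟩ | ⟨p, q⟩)
  · constructor
    · show (C.lab g).relabel (emb (σ b1, τ b2, ρ b3)) =
        ((C.lab g).relabel (emb (b1, b2, b3))).relabel (sand (bl σ) (bl τ) (bl ρ))
      cases C.lab g with
      | var i =>
        rcases i with ⟨i, k⟩ | ⟨k, j⟩ <;> rfl
      | const c => rfl
      | add => rfl
      | mul => rfl
    · show ((C.args g).map fun h => Sum.inl ((σ b1, τ b2, ρ b3), h)) =
        ((C.args g).map fun h => Sum.inl ((b1, b2, b3), h)).map (blockP G σ τ ρ)
      rw [Multiset.map_map]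
      rfl
  · constructor
    · rfl
    · show ((Finset.univ : Finset (Bk r)).val.map fun b =>
          Sum.inl ((blk (bl σ p), b, blk (bl ρ q)), out (loc (bl σ p)) (loc (bl ρ q)))) =
        ((Finset.univ : Finset (Bk r)).val.map fun b =>
          Sum.inl ((blk p, b, blk q), out (loc p) (loc q))).map (blockP G σ τ ρ)
      rw [Multiset.map_map, blk_bl, blk_bl, loc_bl, loc_bl]
      have h1 : (Finset.univ : Finset (Bk r)).val.map τ = (Finset.univ : Finset (Bk r)).val := by
        have h2 := congrArg Finset.val (Finset.map_univ_equiv τ)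
        rwa [Finset.map_val] at h2
      conv_lhs => rw [← h1]
      rw [Multiset.map_map]
      rfl

end upper

/-- The exchanges are block permutations. -/
theorem sw_eq_bl {r s : ℕ} {Z : Type} (x : Fin r → ZMod 2) :
    ∃ σ : Equiv.Perm (Fin r × ZMod 2), (sw x : Ix r s Z → Ix r s Z) = bl σ := by
  refine ⟨⟨fun b => (b.1, b.2 + x b.1), fun b => (b.1, b.2 + x b.1), ?_, ?_⟩, ?_⟩
  · rintro ⟨v, a⟩
    simp only [Prod.mk.injEq, true_and]
    rw [add_assoc, CharTwo.add_self_eq_zero, add_zero]
  · rintro ⟨v, a⟩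
    simp only [Prod.mk.injEq, true_and]
    rw [add_assoc, CharTwo.add_self_eq_zero, add_zero]
  · funext p
    rcases p with ⟨v, a, i⟩ | z <;> rfl

end Pool.Agent.H522R3.SW
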