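import Pool.Agent.H522R3.SW.Prod

/-!
# Simultaneous exchanges: eight-wise independent groups
-/

namespace Pool.Agent.H522R3.SW

open MvPolynomial Pool.Agent.H522R3.LS

/-- Every pattern on at most `k` of the `r` pairs is realised by a member of `Γ`. -/
def Rich {r : ℕ} (k : ℕ) (Γ : AddSubgroup (Fin r → ZMod 2)) : Prop :=
  ∀ A : Finset (Fin r), A.card ≤ k → ∀ y : Fin r → ZMod 2, ∃ x ∈ Γ, ∀ c ∈ A, x c = y c

section diag

variable {r : ℕ} (Γ : AddSubgroup (Fin r → ZMod 2))

/-- the group as a vector space -/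
abbrev GV : Type := AddSubgroup.toZModSubmodule 2 Γ

/-- the patterns for simultaneous exchanges -/
def PD : GV Γ →ₗ[ZMod 2] Pat r :=
  (LinearMap.prod LinearMap.id (LinearMap.prod LinearMap.id LinearMap.id)).comp
    (AddSubgroup.toZModSubmodule 2 Γ).subtype

theorem PD_apply (x : GV Γ) : PD Γ x = (x.1, x.1, x.1) := rfl

/-- the coordinate functionals -/
def dl (u : Fin r) : Module.Dual (ZMod 2) (GV Γ) :=
  (LinearMap.proj u).comp (AddSubgroup.toZModSubmodule 2 Γ).subtype

theorem dl_apply (u : Fin r) (x : GV Γ) : dl Γ u x = x.1 u := rfl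

theorem cA_dl (u : Fin r) : cA (PD Γ) u = dl Γ u := rfl
theorem cB_dl (u : Fin r) : cB (PD Γ) u = dl Γ u := rfl
theorem cC_dl (u : Fin r) : cC (PD Γ) u = dl Γ u := rfl

variable {Γ}

/-- distinct small sets have distinct functionals -/
theorem sum_dl_inj (hΓ : Rich 8 Γ) {S S' : Finset (Fin r)} (hS : S.card ≤ 4)
    (hS' : S'.card ≤ 4) (h : ∑ u ∈ S, dl Γ u = ∑ u ∈ S', dl Γ u) : S = S' := by
  classical
  by_contra hne
  have hsd : (symmDiff S S').Nonempty := by
    rw [Finset.nonempty_iff_ne_empty]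
    intro he
    exact hne (symmDiff_eq_bot.mp he)
  obtain ⟨w, hw⟩ := hsd
  obtain ⟨x, hx, hxw⟩ := hΓ (S ∪ S') ((Finset.card_union_le _ _).trans (by omega))
    (fun c => if c = w then 1 else 0)
  have hx' : x ∈ AddSubgroup.toZModSubmodule 2 Γ := hx
  have h1 := LinearMap.congr_fun h ⟨x, hx'⟩
  simp only [LinearMap.sum_apply, dl_apply] at h1
  rw [Finset.sum_congr rfl (fun u hu => hxw u (Finset.mem_union_left _ hu)),
    Finset.sum_congr rfl (fun u hu => hxw u (Finset.mem_union_right _ hu)),
    Finset.sum_ite_eq', Finset.sum_ite_eq'] at h1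
  rcases Finset.mem_symmDiff.mp hw with ⟨h2, h3⟩ | ⟨h2, h3⟩
  · rw [if_pos h2, if_neg h3] at h1
    exact one_ne_zero h1
  · rw [if_pos h2, if_neg h3] at h1
    exact one_ne_zero h1.symm

/-- the distinct triples -/
def DT (r : ℕ) : Finset (Fin r × Fin r × Fin r) :=
  Finset.univ.filter fun T => T.1 ≠ T.2.1 ∧ T.2.1 ≠ T.2.2 ∧ T.1 ≠ T.2.2

theorem card_DT (r : ℕ) : (r - 2) ^ 3 ≤ (DT r).card := by
  classical
  have h1 : (Finset.univ : Finset (Fin 3 ↪ Fin r)).card ≤ (DT r).card := by
    apply Finset.card_le_card_of_injOn (fun e => (e 0, e 1, e 2))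
    · intro e _
      rw [Finset.mem_coe, DT, Finset.mem_filter]
      refine ⟨Finset.mem_univ _, ?_, ?_, ?_⟩
      · exact fun h => by simpa using e.injective h
      · exact fun h => by simpa using e.injective h
      · exact fun h => by simpa using e.injective h
    · intro e _ e' _ h
      rw [Prod.mk.injEq, Prod.mk.injEq] at h
      apply DFunLike.ext
      intro i
      fin_cases i
      exacts [h.1, h.2.1, h.2.2]
  rw [Finset.card_univ, Fintype.card_embedding_eq, Fintype.card_fin, Fintype.card_fin] at h1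
  refine le_trans ?_ h1
  have := Nat.pow_sub_le_descFactorial r 3
  have e : r + 1 - 3 = r - 2 := by omega
  rwa [e] at this

open Classical in
/-- the small sets whose functional lies in `K` -/
noncomputable def SK (K : Submodule (ZMod 2) (Module.Dual (ZMod 2) (GV Γ))) :
    Finset (Finset (Fin r)) :=
  Finset.univ.filter fun S => S.card ≤ 4 ∧ ∑ u ∈ S, dl Γ u ∈ K

theorem card_SK (hΓ : Rich 8 Γ) (K : Submodule (ZMod 2) (Module.Dual (ZMod 2) (GV Γ))) :
    (SK K).card ≤ Nat.card K := by
  classical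
  apply card_le_of_inj K (SK K) (fun S => ∑ u ∈ S, dl Γ u)
  · intro S hS
    exact (Finset.mem_filter.mp hS).2.2
  · intro S hS S' hS' h
    exact sum_dl_inj hΓ (Finset.mem_filter.mp hS).2.1 (Finset.mem_filter.mp hS').2.1 h

open Classical in
/-- a small set assigned to a triple -/
noncomputable def PhiT (K : Submodule (ZMod 2) (Module.Dual (ZMod 2) (GV Γ)))
    (T : Fin r × Fin r × Fin r) : Finset (Fin r) :=
  if dl Γ T.1 + dl Γ T.2.1 + dl Γ T.2.2 ∈ K then {T.1, T.2.1, T.2.2}
  else if h : ∃ z, z ∉ ({T.1, T.2.1, T.2.2} : Finset (Fin r)) ∧ dl Γ z + dl Γ T.1 ∈ K then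
    insert h.choose {T.1, T.2.1, T.2.2}
  else {T.1, T.2.1}

theorem dl_two (u : Fin r) : dl Γ u + dl Γ u = 0 := two_self _

theorem count_diag (hΓ : Rich 8 Γ) (K : Submodule (ZMod 2) (Module.Dual (ZMod 2) (GV Γ)))
    (E : Finset (Fin r × Fin r × Fin r)) (hET : E ⊆ DT r) (hE : ∀ T ∈ E, AB (PD Γ) K T) :
    E.card ≤ 64 * Nat.card K := by
  classical
  have hmaps : ∀ T ∈ E, PhiT K T ∈ SK K := by
    intro T hT
    have hd := (Finset.mem_filter.mp (hET hT)).2
    obtain ⟨d1, d2, d3⟩ := hd
    have hAB := hE T hT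
    unfold AB at hAB
    rw [cA_dl, cB_dl, cC_dl] at hAB
    rw [SK, Finset.mem_filter]
    refine ⟨Finset.mem_univ _, ?_⟩
    unfold PhiT
    have hsum3 : ∑ u ∈ ({T.1, T.2.1, T.2.2} : Finset (Fin r)), dl Γ u =
        dl Γ T.1 + dl Γ T.2.1 + dl Γ T.2.2 := by
      rw [Finset.sum_insert (by simp [d1, d3]), Finset.sum_insert (by simp [d2]),
        Finset.sum_singleton, add_assoc]
    split_ifs with h1 h2
    · refine ⟨Finset.card_le_three.trans (by norm_num), ?_⟩
      rw [hsum3]
      exact h1
    · have hz := h2.choose_spec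
      set z := h2.choose
      refine ⟨(Finset.card_insert_le _ _).trans
        (Nat.succ_le_succ Finset.card_le_three), ?_⟩
      rw [Finset.sum_insert hz.1, hsum3]
      have hB := hAB.resolve_left h1
      have e : dl Γ z + (dl Γ T.1 + dl Γ T.2.1 + dl Γ T.2.2) =
          (dl Γ z + dl Γ T.1) + (dl Γ T.2.1 + dl Γ T.2.2) := by abel
      rw [e]
      exact K.add_mem hz.2 hB.2
    · refine ⟨Finset.card_le_two.trans (by norm_num), ?_⟩
      rw [Finset.sum_pair d1]
      exact (hAB.resolve_left h1).1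
  have hfib : ∀ S ∈ SK K, (E.filter fun T => PhiT K T = S).card ≤ 64 := by
    intro S hS
    have hSc := (Finset.mem_filter.mp hS).2.1
    by_cases hc : 3 ≤ S.card
    · -- all members of the triple lie in `S`
      have hsub : (E.filter fun T => PhiT K T = S) ⊆ S ×ˢ S ×ˢ S := by
        intro T hT
        obtain ⟨_, hTS⟩ := Finset.mem_filter.mp hT
        have h3 : ({T.1, T.2.1, T.2.2} : Finset (Fin r)) ⊆ S := by
          unfold PhiT at hTS
          split_ifs at hTS with h1 h2
          · rw [← hTS]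
          · rw [← hTS]
            exact Finset.subset_insert _ _
          · exfalso
            rw [← hTS] at hc
            have := Finset.card_le_two (a := T.1) (b := T.2.1)
            omega
        rw [Finset.mem_product, Finset.mem_product]
        exact ⟨h3 (by simp), h3 (by simp), h3 (by simp)⟩
      refine (Finset.card_le_card hsub).trans ?_
      rw [Finset.card_product, Finset.card_product]
      calc S.card * (S.card * S.card) ≤ 4 * (4 * 4) :=
            Nat.mul_le_mul hSc (Nat.mul_le_mul hSc hSc)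
        _ = 64 := by norm_num
    · -- the third member is determined by the first two
      have hcase : ∀ T ∈ E.filter fun T => PhiT K T = S,
          ¬ (dl Γ T.1 + dl Γ T.2.1 + dl Γ T.2.2 ∈ K) ∧
          (¬ ∃ z, z ∉ ({T.1, T.2.1, T.2.2} : Finset (Fin r)) ∧ dl Γ z + dl Γ T.1 ∈ K) ∧
          S = {T.1, T.2.1} := by
        intro T hT
        obtain ⟨hTE, hTS⟩ := Finset.mem_filter.mp hT
        obtain ⟨d1, d2, d3⟩ := (Finset.mem_filter.mp (hET hTE)).2
        have hc3 : ({T.1, T.2.1, T.2.2} : Finset (Fin r)).card = 3 := by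
          rw [Finset.card_insert_of_notMem (by simp [d1, d3]),
            Finset.card_insert_of_notMem (by simp [d2]), Finset.card_singleton]
        unfold PhiT at hTS
        split_ifs at hTS with h1 h2
        · exfalso
          rw [← hTS, hc3] at hc
          exact hc le_rfl
        · exfalso
          apply hc
          rw [← hTS, ← hc3]
          exact Finset.card_le_card (Finset.subset_insert _ _)
        · exact ⟨h1, h2, hTS.symm⟩
      have hinj : Set.InjOn (fun T : Fin r × Fin r × Fin r => (T.1, T.2.1))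
          (E.filter fun T => PhiT K T = S : Finset _) := by
        intro T hT T' hT' h
        have hT1 := Finset.mem_coe.mp hT
        have hT1' := Finset.mem_coe.mp hT'
        obtain ⟨h1, h2, _⟩ := hcase T hT1
        obtain ⟨h1', h2', _⟩ := hcase T' hT1'
        obtain ⟨d1, d2, d3⟩ := (Finset.mem_filter.mp (hET (Finset.mem_filter.mp hT1).1)).2
        obtain ⟨d1', d2', d3'⟩ :=
          (Finset.mem_filter.mp (hET (Finset.mem_filter.mp hT1').1)).2
        rw [Prod.mk.injEq] at h
        obtain ⟨e1, e2⟩ := h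
        refine Prod.ext e1 (Prod.ext e2 ?_)
        by_contra hne
        apply h2
        refine ⟨T'.2.2, ?_, ?_⟩
        · rw [Finset.mem_insert, Finset.mem_insert, Finset.mem_singleton]
          rintro (h | h | h)
          · rw [e1] at h
            exact d3' h.symm
          · rw [e2] at h
            exact d2' h.symm
          · exact hne h.symm
        · have hAB' := hE T' (Finset.mem_filter.mp hT1').1
          unfold AB at hAB'
          rw [cA_dl, cB_dl, cC_dl] at hAB'
          obtain ⟨hB1, hB2⟩ := hAB'.resolve_left h1'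
          rw [e1]
          have e : dl Γ T'.2.2 + dl Γ T'.1 =
              (dl Γ T'.1 + dl Γ T'.2.1) + (dl Γ T'.2.1 + dl Γ T'.2.2) := by
            calc dl Γ T'.2.2 + dl Γ T'.1 =
                  (dl Γ T'.2.2 + dl Γ T'.1) + (dl Γ T'.2.1 + dl Γ T'.2.1) := by
                    rw [dl_two, add_zero]
              _ = _ := by abel
          rw [e]
          exact K.add_mem hB1 hB2
      have hmap : ∀ T ∈ E.filter fun T => PhiT K T = S, (T.1, T.2.1) ∈ S ×ˢ S := by
        intro T hT
        obtain ⟨_, _, h3⟩ := hcase T hT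
        rw [Finset.mem_product, h3]
        simp
      refine (Finset.card_le_card_of_injOn _ hmap hinj).trans ?_
      rw [Finset.card_product]
      calc S.card * S.card ≤ 4 * 4 := Nat.mul_le_mul hSc hSc
        _ ≤ 64 := by norm_num
  have h1 := Finset.card_le_mul_card_image_of_maps_to hmaps 64 hfib
  exact h1.trans (Nat.mul_le_mul_left _ (card_SK hΓ K))

/-- **Simultaneous exchanges.** -/
theorem diag_bound (hΓ : Rich 8 Γ) {F : Type} [Field F] {s : ℕ} {Z G : Type} [Fintype Z]
    [Fintype G] (C : Circ (Vr r s Z) F G) (val : G → MvPolynomial (Vr r s Z) F)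
    (out : Ix r s Z → Ix r s Z → G) (hC : Computes C val out)
    (hsym : ∀ x ∈ Γ, Symm C out (sw x) (sw x) (sw x)) :
    (r - 2) ^ 3 * s ^ 2 ≤ 512 * gates C := by
  classical
  have hfin : Finite (GV Γ) := inferInstance
  have : Fintype (GV Γ) := Fintype.ofFinite _
  have h := main_bound (PD Γ) out hC (fun μ => hsym μ.1 μ.2) (DT r) ?_ 64
    (fun K E hE1 hE2 => count_diag hΓ K E hE1 hE2)
  · calc (r - 2) ^ 3 * s ^ 2 ≤ (DT r).card * s ^ 2 := Nat.mul_le_mul_right _ (card_DT r)
      _ ≤ 8 * 64 * gates C := h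
      _ = 512 * gates C := by ring
  · intro T hT
    obtain ⟨d1, d2, d3⟩ := (Finset.mem_filter.mp hT).2
    obtain ⟨x, hx, hxw⟩ := hΓ {T.1, T.2.1, T.2.2} (Finset.card_le_three.trans (by norm_num))
      (fun c => if c = T.2.1 then 1 else 0)
    have hx' : x ∈ AddSubgroup.toZModSubmodule 2 Γ := hx
    refine ⟨⟨x, hx'⟩, ?_, ?_, ?_⟩
    · show x T.1 = 0
      rw [hxw T.1 (by simp), if_neg d1]
    · show x T.2.1 = 1
      rw [hxw T.2.1 (by simp), if_pos rfl]
    · show x T.2.2 = 0
      rw [hxw T.2.2 (by simp), if_neg d2.symm]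

end diag

end Pool.Agent.H522R3.SW
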