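import Pool.Agent.H522R3.SW.Circ

/-!
# The general lower bound
-/

namespace Pool.Agent.H522R3.SW

open MvPolynomial Pool.Agent.H522R3.LS

/-- The number of gates of a circuit: the nodes labelled with an operation. -/
noncomputable def gates {V F G : Type} [Fintype G] (C : Circ V F G) : ℕ := by
  classical
  exact (Finset.univ.filter fun g => C.lab g = .add ∨ C.lab g = .mul).card

theorem relabel_op {V F : Type} (f : V → V) (l : Lab V F) (h : l = .add ∨ l = .mul) :
    l.relabel f = .add ∨ l.relabel f = .mul := by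
  rcases h with rfl | rfl
  · exact Or.inl rfl
  · exact Or.inr rfl

theorem z2_ones : ∀ a b c : ZMod 2, a + b + c ≠ 0 → ¬ (a = 1 ∧ b = 0 ∧ c = 0) →
    ¬ (a = 0 ∧ b = 1 ∧ c = 0) → ¬ (a = 0 ∧ b = 0 ∧ c = 1) → a = 1 ∧ b = 1 ∧ c = 1 := by
  decide

theorem z2_unit : ∀ a b c : ZMod 2, a + b ≠ 0 ∨ b + c ≠ 0 → ¬ (a = 1 ∧ b = 0 ∧ c = 0) →
    ¬ (a = 0 ∧ b = 1 ∧ c = 0) → ¬ (a = 0 ∧ b = 0 ∧ c = 1) →
    (1 + a = 1 ∧ 1 + b = 0 ∧ 1 + c = 0) ∨ (1 + a = 0 ∧ 1 + b = 1 ∧ 1 + c = 0) ∨
      (1 + a = 0 ∧ 1 + b = 0 ∧ 1 + c = 1) := by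
  decide

section dual

variable {V : Type} [AddCommGroup V] [Module (ZMod 2) V] [Fintype V]

theorem card_dualAnnihilator (H : Submodule (ZMod 2) V) :
    Nat.card H.dualAnnihilator * Nat.card H = Fintype.card V := by
  have h1 : Nat.card H = 2 ^ Module.finrank (ZMod 2) H := by
    rw [Module.natCard_eq_pow_finrank (K := ZMod 2), Nat.card_zmod]
  have h2 : Nat.card H.dualAnnihilator = 2 ^ Module.finrank (ZMod 2) H.dualAnnihilator := by
    rw [Module.natCard_eq_pow_finrank (K := ZMod 2), Nat.card_zmod]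
  have h3 : Nat.card V = 2 ^ Module.finrank (ZMod 2) V := by
    rw [Module.natCard_eq_pow_finrank (K := ZMod 2), Nat.card_zmod]
  have h4 := Subspace.finrank_add_finrank_dualAnnihilator_eq H
  rw [← Nat.card_eq_fintype_card, h1, h2, h3, ← pow_add]
  congr 1
  rw [add_comm]
  exact h4

end dual

section main

variable {F G Z : Type} [Field F] {r s : ℕ} {C : Circ (Vr r s Z) F G}
  {val : G → MvPolynomial (Vr r s Z) F}
  {V : Type} [AddCommGroup V] [Module (ZMod 2) V] (P : V →ₗ[ZMod 2] Pat r)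

/-- the coordinate functionals -/
def cA (u : Fin r) : Module.Dual (ZMod 2) V :=
  (LinearMap.proj u).comp ((LinearMap.fst _ _ _).comp P)

def cB (v : Fin r) : Module.Dual (ZMod 2) V :=
  (LinearMap.proj v).comp ((LinearMap.fst _ _ _).comp ((LinearMap.snd _ _ _).comp P))

def cC (w : Fin r) : Module.Dual (ZMod 2) V :=
  (LinearMap.proj w).comp ((LinearMap.snd _ _ _).comp ((LinearMap.snd _ _ _).comp P))

theorem cA_apply (u : Fin r) (μ : V) : cA P u μ = (P μ).1 u := rfl
theorem cB_apply (v : Fin r) (μ : V) : cB P v μ = (P μ).2.1 v := rfl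
theorem cC_apply (w : Fin r) (μ : V) : cC P w μ = (P μ).2.2 w := rfl

/-- the triples that a gate with the given annihilator can see -/
def AB (K : Submodule (ZMod 2) (Module.Dual (ZMod 2) V)) (T : Fin r × Fin r × Fin r) : Prop :=
  cA P T.1 + cB P T.2.1 + cC P T.2.2 ∈ K ∨
    (cA P T.1 + cB P T.2.1 ∈ K ∧ cB P T.2.1 + cC P T.2.2 ∈ K)

variable (C)

/-- the messages whose patterns fix a gate -/
def fixMsg (g : G) : Submodule (ZMod 2) V where
  carrier := {b | Fixes C (P b) g}
  add_mem' := by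
    rintro b b' ⟨p, hp, hpg⟩ ⟨p', hp', hpg'⟩
    refine ⟨p' * p, ?_, ?_⟩
    · rw [map_add, ← swV_comp]
      exact isAut_mul hp hp'
    · rw [Equiv.Perm.mul_apply, hpg, hpg']
  zero_mem' := by
    refine ⟨1, ?_, rfl⟩
    rw [map_zero, swV_zero]
    exact isAut_one C
  smul_mem' := by
    intro t b hb
    rcases z2_cases t with h | h
    · rw [h, zero_smul]
      refine ⟨1, ?_, rfl⟩
      rw [map_zero, swV_zero]
      exact isAut_one C
    · rw [h, one_smul]
      exact hb

/-- two nodes are equivalent if an automorphism over a pattern maps one to the other -/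
def Rel (g h : G) : Prop := ∃ μ : V, ∃ π : Equiv.Perm G, IsAut C (swV (P μ)) π ∧ π g = h

theorem two_self (μ : V) : μ + μ = 0 := by
  have h : (2 : ZMod 2) = 0 := by decide
  rw [← two_smul (ZMod 2), h, zero_smul]

/-- the setoid -/
def relS : Setoid G where
  r := Rel C P
  iseqv := {
    refl := fun g => ⟨0, 1, by rw [map_zero, swV_zero]; exact isAut_one C, rfl⟩
    symm := by
      rintro g h ⟨μ, π, hπ, hg⟩
      refine ⟨μ, π⁻¹, isAut_symm hπ, ?_⟩
      rw [← hg]
      exact π.symm_apply_apply g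
    trans := by
      rintro g h k ⟨μ, π, hπ, hg⟩ ⟨μ', π', hπ', hg'⟩
      refine ⟨μ + μ', π' * π, ?_, ?_⟩
      · rw [map_add, ← swV_comp]
        exact isAut_mul hπ hπ'
      · rw [Equiv.Perm.mul_apply, hg, hg'] }

/-- representatives of the classes -/
noncomputable def rep (g : G) : G := (Quotient.mk (relS C P) g).out

omit [Field F] in
theorem rep_rel (g : G) : Rel C P (rep C P g) g :=
  Quotient.exact (s := relS C P) (Quotient.out_eq _)

omit [Field F] in
theorem rep_eq {g h : G} (hgh : Rel C P g h) : rep C P g = rep C P h := by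
  unfold rep
  rw [Quotient.sound (s := relS C P) hgh]

omit [Field F] in
theorem rel_of_rep {g h : G} (hgh : rep C P g = rep C P h) : Rel C P g h :=
  (relS C P).trans ((relS C P).symm (rep_rel C P g)) (hgh ▸ rep_rel C P h)

omit [Field F] in
theorem rep_rep (g : G) : rep C P (rep C P g) = rep C P g :=
  rep_eq C P (rep_rel C P g)

variable {C}

omit [Field F] in
theorem rel_op {g h : G} (hgh : Rel C P g h) (hop : C.lab g = .add ∨ C.lab g = .mul) :
    C.lab h = .add ∨ C.lab h = .mul := by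
  obtain ⟨μ, π, hπ, rfl⟩ := hgh
  rw [(hπ g).1]
  exact relabel_op _ _ hop

variable [Fintype G]

variable (C)

open Classical in
/-- the class of a node -/
noncomputable def cls (g : G) : Finset G := Finset.univ.filter fun h => Rel C P g h

variable {C}

omit [Field F] in
theorem card_fixMsg [Fintype V]
    (hsym : ∀ μ, ∃ π : Equiv.Perm G, IsAut C (swV (P μ)) π) (g : G) :
    Fintype.card V ≤ Nat.card (fixMsg C P g) * (cls C P g).card := by
  classical
  choose π hπ using hsym
  have hmaps : ∀ b ∈ (Finset.univ : Finset V), π b g ∈ cls C P g := by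
    intro b _
    rw [cls, Finset.mem_filter]
    exact ⟨Finset.mem_univ _, b, π b, hπ b, rfl⟩
  have hfib : ∀ h ∈ cls C P g, (Finset.univ.filter fun b : V => π b g = h).card ≤
      Nat.card (fixMsg C P g) := by
    intro h _
    rcases (Finset.univ.filter fun b : V => π b g = h).eq_empty_or_nonempty with he | he
    · rw [he]; simp
    · obtain ⟨b₀, hb₀⟩ := he
      have hb₀' : π b₀ g = h := (Finset.mem_filter.mp hb₀).2
      rw [Nat.card_eq_fintype_card, ← Finset.card_univ]
      apply Finset.card_le_card_of_surjOn (fun x : fixMsg C P g => x.1 + b₀)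
      intro b hb
      have hb' : π b g = h := (Finset.mem_filter.mp (Finset.mem_coe.mp hb)).2
      have hmem : b + b₀ ∈ fixMsg C P g := by
        refine ⟨(π b₀)⁻¹ * π b, ?_, ?_⟩
        · rw [map_add, ← swV_comp]
          exact isAut_mul (hπ b) (isAut_symm (hπ b₀))
        · rw [Equiv.Perm.mul_apply, hb', ← hb₀']
          exact (π b₀).symm_apply_apply g
      refine ⟨⟨b + b₀, hmem⟩, by simp, ?_⟩
      show b + b₀ + b₀ = b
      rw [add_assoc, two_self, add_zero]
  have h1 := Finset.card_le_mul_card_image_of_maps_to hmaps _ hfib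
  rwa [Finset.card_univ] at h1

omit [Field F] in
theorem card_ann [Fintype V]
    (hsym : ∀ μ, ∃ π : Equiv.Perm G, IsAut C (swV (P μ)) π) (g : G) :
    Nat.card (fixMsg C P g).dualAnnihilator ≤ (cls C P g).card := by
  have h1 := card_dualAnnihilator (fixMsg C P g)
  have h2 := card_fixMsg P hsym g
  rw [← h1, mul_comm] at h2
  exact Nat.le_of_mul_le_mul_left h2 Nat.card_pos

omit [Fintype G] in
theorem sees_AB (hval : IsVal C val) {u v w : Fin r} {g : G} (h : Sees C val u v w g) :
    AB P (fixMsg C P g).dualAnnihilator (u, v, w) := by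
  by_contra hcon
  unfold AB at hcon
  push Not at hcon
  obtain ⟨h1, h2⟩ := hcon
  rw [Submodule.mem_dualAnnihilator] at h1
  push Not at h1
  obtain ⟨b, hb, hb1⟩ := h1
  have h3 : ∃ c ∈ fixMsg C P g, (cA P u + cB P v) c ≠ 0 ∨ (cB P v + cC P w) c ≠ 0 := by
    by_cases h4 : cA P u + cB P v ∈ (fixMsg C P g).dualAnnihilator
    · have h5 := h2 h4
      rw [Submodule.mem_dualAnnihilator] at h5
      push Not at h5
      obtain ⟨c, hc, hc'⟩ := h5
      exact ⟨c, hc, Or.inr hc'⟩
    · rw [Submodule.mem_dualAnnihilator] at h4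
      push Not at h4
      obtain ⟨c, hc, hc'⟩ := h4
      exact ⟨c, hc, Or.inl hc'⟩
  obtain ⟨c, hc, hc'⟩ := h3
  have nb := sees_not_fixes hval h (show Fixes C (P b) g from hb)
  have nc := sees_not_fixes hval h (show Fixes C (P c) g from hc)
  have nbc := sees_not_fixes hval h
    (show Fixes C (P (b + c)) g from (fixMsg C P g).add_mem hb hc)
  rw [map_add] at nbc
  simp only [LinearMap.add_apply, cA_apply, cB_apply, cC_apply] at hb1 hc'
  simp only [Prod.fst_add, Prod.snd_add, Pi.add_apply] at nbc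
  obtain ⟨e1, e2, e3⟩ := z2_ones _ _ _ hb1 nb.1 nb.2.1 nb.2.2
  rw [e1, e2, e3] at nbc
  rcases z2_unit _ _ _ hc' nc.1 nc.2.1 nc.2.2 with h' | h' | h'
  exacts [nbc.1 h', nbc.2.1 h', nbc.2.2 h']

variable [Fintype Z]

open Classical in
/-- the representatives of the gates -/
noncomputable def reps (C : Circ (Vr r s Z) F G) : Finset G :=
  (Finset.univ.filter fun g => C.lab g = .add ∨ C.lab g = .mul).filter fun g => rep C P g = g

open Classical in
theorem triple_bound (hval : IsVal C val) (out : Ix r s Z → Ix r s Z → G)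
    (hout : ∀ p q, val (out p q) = prodEntry F p q) (u v w : Fin r) (x : Pat r)
    (hxu : x.1 u = 0) (hxv : x.2.1 v = 1) (hxw : x.2.2 w = 0) (π : Equiv.Perm G)
    (hp : IsAut C (swV x) π) (hpo : ∀ a b, π (out a b) = out (sw x.1 a) (sw x.2.2 b)) :
    s ^ 2 ≤ 8 * ((reps P C).filter fun g => Sees C val u v w g).card := by
  set S := (reps P C).filter fun g => Sees C val u v w g with hS
  have h := entries_mem_ideal (F := F) (s := s) (ι := S × ZMod 2)
    (fun g => phi F r s Z u v w 1 g.2 (val g.1.1) - phi F r s Z u v w 0 g.2 (val g.1.1))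
    (fun g => by rw [map_sub, const_phi, const_phi, sub_self]) ?_
  · rw [Fintype.card_prod, Fintype.card_coe, ZMod.card] at h
    omega
  intro i j
  set J := Ideal.span (Set.range fun g : S × ZMod 2 =>
    phi F r s Z u v w 1 g.2 (val g.1.1) - phi F r s Z u v w 0 g.2 (val g.1.1)) with hJ
  have hJ' : ∀ g, Sees C val u v w g →
      phi F r s Z u v w 1 0 (val g) - phi F r s Z u v w 0 0 (val g) ∈ J := by
    intro g hg
    obtain ⟨μ, ρ, hρ, hρg⟩ := rep_rel C P g
    have hsg : Sees C val u v w (rep C P g) := by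
      apply sees_aut hval hρ
      rwa [hρg]
    have hmem : rep C P g ∈ S := by
      rw [hS, Finset.mem_filter, reps, Finset.mem_filter, Finset.mem_filter]
      exact ⟨⟨⟨Finset.mem_univ _, sees_op hval hsg⟩, rep_rep C P g⟩, hsg⟩
    have hgen : ∀ b, phi F r s Z u v w 1 b (val (rep C P g)) -
        phi F r s Z u v w 0 b (val (rep C P g)) ∈ J := fun b =>
      Ideal.subset_span ⟨(⟨rep C P g, hmem⟩, b), rfl⟩
    have e1 : ∀ a, phi F r s Z u v w a 0 (val g) =
        phi F r s Z u v w (a + (P μ).1 u + (P μ).2.1 v) (0 + (P μ).2.1 v + (P μ).2.2 w)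
          (val (rep C P g)) := by
      intro a
      conv_lhs => rw [← hρg]
      exact aut_phi hval hρ _ u v w a 0
    rw [e1, e1]
    have e11 : (1 : ZMod 2) + 1 = 0 := by decide
    have e01 : (0 : ZMod 2) + 1 = 1 := by decide
    rcases z2_cases ((P μ).1 u + (P μ).2.1 v) with h' | h'
    · rw [add_assoc 1 ((P μ).1 u), add_assoc 0 ((P μ).1 u), h', add_zero, add_zero]
      exact hgen _
    · rw [add_assoc 1 ((P μ).1 u), add_assoc 0 ((P μ).1 u), h', e11, e01]
      have := J.neg_mem (hgen (0 + (P μ).2.1 v + (P μ).2.2 w))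
      rwa [neg_sub] at this
  have hfix : Fixes C x (out (.inl (u, 0, i)) (.inl (w, 0, j))) := by
    refine ⟨π, hp, ?_⟩
    rw [hpo]
    simp [sw, hxu, hxw]
  have h1 := free_mem hval u v w J hJ' _ _ (Nat.lt_succ_self _) x hxu hxv hxw hfix
  rw [hout, phi_prodEntry, phi_prodEntry] at h1
  rw [if_neg (by decide), if_pos (by decide), zero_sub] at h1
  exact (Ideal.neg_mem_iff J).mp h1

/-- **The general lower bound.** -/
theorem main_bound [Fintype V] (out : Ix r s Z → Ix r s Z → G) (hC : Computes C val out)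
    (hsym : ∀ μ, Symm C out (sw (P μ).1) (sw (P μ).2.1) (sw (P μ).2.2))
    (T0 : Finset (Fin r × Fin r × Fin r))
    (hfree : ∀ T ∈ T0, ∃ μ, (P μ).1 T.1 = 0 ∧ (P μ).2.1 T.2.1 = 1 ∧ (P μ).2.2 T.2.2 = 0)
    (c : ℕ)
    (hK : ∀ K : Submodule (ZMod 2) (Module.Dual (ZMod 2) V), ∀ E ⊆ T0,
      (∀ T ∈ E, AB P K T) → E.card ≤ c * Nat.card K) :
    T0.card * s ^ 2 ≤ 8 * c * gates C := by
  classical
  have hval := hC.1
  have hsym' : ∀ μ, ∃ π : Equiv.Perm G, IsAut C (swV (P μ)) π := fun μ =>
    ⟨(hsym μ).choose, (hsym μ).choose_spec.1⟩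
  set Ops := Finset.univ.filter fun g => C.lab g = .add ∨ C.lab g = .mul with hOps
  have hOc : gates C = Ops.card := by
    unfold gates
    simp only [hOps]
  set R := reps P C with hR
  have h1 : ∀ T ∈ T0, s ^ 2 ≤ 8 * (R.filter fun g => Sees C val T.1 T.2.1 T.2.2 g).card := by
    intro T hT
    obtain ⟨μ, hμ1, hμ2, hμ3⟩ := hfree T hT
    obtain ⟨π, hπ, hπo⟩ := hsym μ
    exact triple_bound P hval out hC.2 T.1 T.2.1 T.2.2 (P μ) hμ1 hμ2 hμ3 π hπ hπo
  have h2 : T0.card * s ^ 2 ≤
      8 * ∑ T ∈ T0, (R.filter fun g => Sees C val T.1 T.2.1 T.2.2 g).card := by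
    rw [Finset.mul_sum, ← smul_eq_mul, ← Finset.sum_const]
    exact Finset.sum_le_sum h1
  have h3 : ∑ T ∈ T0, (R.filter fun g => Sees C val T.1 T.2.1 T.2.2 g).card =
      ∑ g ∈ R, (T0.filter fun T => Sees C val T.1 T.2.1 T.2.2 g).card := by
    simp only [Finset.card_filter]
    rw [Finset.sum_comm]
  have h4 : ∀ g ∈ R, (T0.filter fun T => Sees C val T.1 T.2.1 T.2.2 g).card ≤
      c * (cls C P g).card := by
    intro g _
    refine (hK (fixMsg C P g).dualAnnihilator _ (Finset.filter_subset _ _) ?_).trans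
      (Nat.mul_le_mul_left _ (card_ann P hsym' g))
    intro T hT
    exact sees_AB P hval (Finset.mem_filter.mp hT).2
  have h5 : ∑ g ∈ R, (cls C P g).card = Ops.card := by
    rw [Finset.card_eq_sum_card_fiberwise (f := rep C P) (s := Ops) (t := R)]
    · apply Finset.sum_congr rfl
      intro g hg
      rw [hR, reps, Finset.mem_filter] at hg
      congr 1
      ext h
      rw [cls, Finset.mem_filter, Finset.mem_filter]
      constructor
      · rintro ⟨_, hgh⟩
        refine ⟨?_, ?_⟩
        · rw [hOps, Finset.mem_filter]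
          exact ⟨Finset.mem_univ _, rel_op P hgh (Finset.mem_filter.mp hg.1).2⟩
        · rw [← rep_eq C P hgh]
          exact hg.2
      · rintro ⟨_, hgh⟩
        refine ⟨Finset.mem_univ _, rel_of_rep C P ?_⟩
        rw [hgh]
        exact hg.2
    · intro g hg
      rw [Finset.mem_coe, hOps, Finset.mem_filter] at hg
      rw [Finset.mem_coe, hR, reps, Finset.mem_filter, Finset.mem_filter]
      refine ⟨⟨Finset.mem_univ _, ?_⟩, rep_rep C P g⟩
      exact rel_op P ((relS C P).symm (rep_rel C P g)) hg.2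
  calc T0.card * s ^ 2 ≤ 8 * ∑ g ∈ R, (T0.filter fun T => Sees C val T.1 T.2.1 T.2.2 g).card := by
        rw [← h3]; exact h2
    _ ≤ 8 * ∑ g ∈ R, c * (cls C P g).card :=
      Nat.mul_le_mul_left _ (Finset.sum_le_sum h4)
    _ = 8 * c * gates C := by
      rw [← Finset.mul_sum, h5, hOc]
      ring

end main

end Pool.Agent.H522R3.SW
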