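import Pool.Agent.H522R3.SW.Main

/-!
# Independent exchanges: a group of order `8 r ^ 3`
-/

namespace Pool.Agent.H522R3.SW

open MvPolynomial Pool.Agent.H522R3.LS

/-- vectors over `ZMod 2` -/
abbrev Vec (κ : ℕ) : Type := Fin κ → ZMod 2

theorem exists_columns (r : ℕ) (hr : 1 ≤ r) : ∃ κ : ℕ, 2 ^ κ ≤ 2 * r ∧
    ∃ a : Fin r → Vec κ, Function.Injective a ∧ ∀ u, a u ≠ 0 := by
  classical
  refine ⟨Nat.log 2 r + 1, ?_, ?_⟩
  · rw [pow_succ, mul_comm]
    exact Nat.mul_le_mul_left _ (Nat.pow_log_le_self 2 (by omega))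
  · have hcard : Fintype.card (Fin r) ≤
        Fintype.card {v : Vec (Nat.log 2 r + 1) // v ≠ 0} := by
      have h1 : Fintype.card {v : Vec (Nat.log 2 r + 1) // v ≠ 0} =
          Fintype.card (Vec (Nat.log 2 r + 1)) - 1 := Set.card_ne_eq _
      have h2 : Fintype.card (Vec (Nat.log 2 r + 1)) = 2 ^ (Nat.log 2 r + 1) := by
        simp [Vec, ZMod.card]
      have h3 := Nat.lt_pow_succ_log_self (b := 2) (by norm_num) r
      rw [h1, h2, Fintype.card_fin]
      exact Nat.le_sub_one_of_lt h3
    obtain ⟨f⟩ := Function.Embedding.nonempty_of_card_le hcard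
    exact ⟨fun u => (f u).1, fun u v h => f.injective (Subtype.ext h), fun u => (f u).2⟩

section code

variable {r κ : ℕ} (a : Fin r → Vec κ)

/-- the encoding map -/
def enc : Vec κ →ₗ[ZMod 2] (Fin r → ZMod 2) where
  toFun b u := ∑ c, b c * a u c
  map_add' b b' := by
    funext u
    simp [add_mul, Finset.sum_add_distrib]
  map_smul' t b := by
    funext u
    simp only [Pi.smul_apply, smul_eq_mul, RingHom.id_apply, Finset.mul_sum]
    exact Finset.sum_congr rfl fun c _ => by ring

theorem enc_single (c : Fin κ) (u : Fin r) : enc a (Pi.single c 1) u = a u c := by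
  show ∑ k, (Pi.single c 1 : Vec κ) k * a u k = a u c
  rw [Finset.sum_eq_single c]
  · simp
  · intro k _ hk
    simp [Pi.single_eq_of_ne hk]
  · simp

/-- the code -/
def code : AddSubgroup (Fin r → ZMod 2) := (enc a).toAddMonoidHom.range

theorem enc_mem (b : Vec κ) : enc a b ∈ code a := ⟨b, rfl⟩

theorem card_code : Nat.card (code a) ≤ 2 ^ κ := by
  have h1 : Nat.card (code a) ≤ Nat.card (Vec κ) :=
    Nat.card_le_card_of_surjective _ (enc a).toAddMonoidHom.rangeRestrict_surjective
  refine h1.trans (le_of_eq ?_)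
  rw [Nat.card_eq_fintype_card]
  simp [Vec, ZMod.card]

/-- the patterns for independent exchanges -/
def PP : (Vec κ × Vec κ × Vec κ) →ₗ[ZMod 2] Pat r :=
  LinearMap.prodMap (enc a) (LinearMap.prodMap (enc a) (enc a))

theorem PP_apply (b : Vec κ × Vec κ × Vec κ) :
    PP a b = (enc a b.1, enc a b.2.1, enc a b.2.2) := rfl

variable {a}

theorem colA (u : Fin r) (c : Fin κ) : cA (PP a) u (Pi.single c 1, 0, 0) = a u c := by
  rw [cA_apply, PP_apply]; exact enc_single a c u

theorem colA' (u : Fin r) (b c : Vec κ) : cA (PP a) u (0, b, c) = 0 := by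
  rw [cA_apply, PP_apply]; simp

theorem colB (u : Fin r) (c : Fin κ) : cB (PP a) u (0, Pi.single c 1, 0) = a u c := by
  rw [cB_apply, PP_apply]; exact enc_single a c u

theorem colB' (u : Fin r) (b c : Vec κ) : cB (PP a) u (b, 0, c) = 0 := by
  rw [cB_apply, PP_apply]; simp

theorem colC (u : Fin r) (c : Fin κ) : cC (PP a) u (0, 0, Pi.single c 1) = a u c := by
  rw [cC_apply, PP_apply]; exact enc_single a c u

theorem colC' (u : Fin r) (b c : Vec κ) : cC (PP a) u (b, c, 0) = 0 := by
  rw [cC_apply, PP_apply]; simp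

/-- the functional with given columns -/
theorem cols_inj (ha : Function.Injective a) {u v w w₀ u' v' w' w₀' : Fin r}
    (h : cA (PP a) u + cB (PP a) v + (cC (PP a) w + cC (PP a) w₀) =
      cA (PP a) u' + cB (PP a) v' + (cC (PP a) w' + cC (PP a) w₀')) :
    u = u' ∧ v = v' ∧ a w + a w₀ = a w' + a w₀' := by
  refine ⟨ha ?_, ha ?_, ?_⟩
  · funext c
    have := LinearMap.congr_fun h (Pi.single c 1, 0, 0)
    simpa [LinearMap.add_apply, colA, colB', colC'] using this
  · funext c
    have := LinearMap.congr_fun h (0, Pi.single c 1, 0)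
    simpa [LinearMap.add_apply, colA', colB, colC'] using this
  · funext c
    have := LinearMap.congr_fun h (0, 0, Pi.single c 1)
    simpa [LinearMap.add_apply, colA', colB', colC] using this

theorem cols_inj' (ha : Function.Injective a) {u v w u' v' w' : Fin r}
    (h : cA (PP a) u + cB (PP a) v + cC (PP a) w =
      cA (PP a) u' + cB (PP a) v' + cC (PP a) w') :
    u = u' ∧ v = v' ∧ w = w' := by
  refine ⟨ha ?_, ha ?_, ha ?_⟩
  · funext c
    have := LinearMap.congr_fun h (Pi.single c 1, 0, 0)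
    simpa [LinearMap.add_apply, colA, colB', colC'] using this
  · funext c
    have := LinearMap.congr_fun h (0, Pi.single c 1, 0)
    simpa [LinearMap.add_apply, colA', colB, colC'] using this
  · funext c
    have := LinearMap.congr_fun h (0, 0, Pi.single c 1)
    simpa [LinearMap.add_apply, colA', colB', colC] using this

end code

theorem finite_dual (V : Type) [AddCommGroup V] [Module (ZMod 2) V] [Finite V] :
    Finite (Module.Dual (ZMod 2) V) :=
  Finite.of_injective (fun f : Module.Dual (ZMod 2) V => (f : V → ZMod 2))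
    DFunLike.coe_injective

theorem card_le_of_inj {α V : Type} [AddCommGroup V] [Module (ZMod 2) V] [Finite V]
    (K : Submodule (ZMod 2) (Module.Dual (ZMod 2) V)) (E : Finset α)
    (f : α → Module.Dual (ZMod 2) V) (hf : ∀ x ∈ E, f x ∈ K) (hinj : Set.InjOn f E) :
    E.card ≤ Nat.card K := by
  have := finite_dual V
  rw [← Fintype.card_coe, ← Nat.card_eq_fintype_card]
  exact Nat.card_le_card_of_injective (fun x : E => (⟨f x.1, hf x.1 x.2⟩ : K))
    fun x y hxy => Subtype.ext (hinj x.2 y.2 (congrArg Subtype.val hxy))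

theorem count_prod {r κ : ℕ} {a : Fin r → Vec κ} (ha : Function.Injective a)
    (K : Submodule (ZMod 2) (Module.Dual (ZMod 2) (Vec κ × Vec κ × Vec κ)))
    (E : Finset (Fin r × Fin r × Fin r)) (hE : ∀ T ∈ E, AB (PP a) K T) :
    E.card ≤ 2 * Nat.card K := by
  classical
  set EA := E.filter fun T => cA (PP a) T.1 + cB (PP a) T.2.1 + cC (PP a) T.2.2 ∈ K with hEA
  set EB := E.filter fun T => cA (PP a) T.1 + cB (PP a) T.2.1 ∈ K ∧
    cB (PP a) T.2.1 + cC (PP a) T.2.2 ∈ K with hEB
  have hsub : E ⊆ EA ∪ EB := by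
    intro T hT
    rw [Finset.mem_union, hEA, hEB, Finset.mem_filter, Finset.mem_filter]
    rcases hE T hT with h | h
    · exact Or.inl ⟨hT, h⟩
    · exact Or.inr ⟨hT, h⟩
  have h1 : EA.card ≤ Nat.card K := by
    apply card_le_of_inj K EA
      (fun T => cA (PP a) T.1 + cB (PP a) T.2.1 + cC (PP a) T.2.2)
    · intro T hT
      exact (Finset.mem_filter.mp hT).2
    · intro T _ T' _ h
      obtain ⟨e1, e2, e3⟩ := cols_inj' ha h
      exact Prod.ext e1 (Prod.ext e2 e3)
  have h2 : EB.card ≤ Nat.card K := by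
    -- a base point for each middle index
    have hbase : ∀ v : Fin r, ∃ w₀ : Fin r, (∃ T ∈ EB, T.2.1 = v) →
        cB (PP a) v + cC (PP a) w₀ ∈ K := by
      intro v
      by_cases h : ∃ T ∈ EB, T.2.1 = v
      · obtain ⟨T, hT, hv⟩ := h
        refine ⟨T.2.2, fun _ => ?_⟩
        rw [← hv]
        exact (Finset.mem_filter.mp hT).2.2
      · exact ⟨v, fun h' => absurd h' h⟩
    choose w₀ hw₀ using hbase
    apply card_le_of_inj K EB
      (fun T => cA (PP a) T.1 + cB (PP a) T.2.1 + (cC (PP a) T.2.2 + cC (PP a) (w₀ T.2.1)))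
    · intro T hT
      obtain ⟨_, hA, hB⟩ := Finset.mem_filter.mp hT
      have h3 := hw₀ T.2.1 ⟨T, hT, rfl⟩
      have h4 : cC (PP a) T.2.2 + cC (PP a) (w₀ T.2.1) =
          (cB (PP a) T.2.1 + cC (PP a) T.2.2) +
          (cB (PP a) T.2.1 + cC (PP a) (w₀ T.2.1)) := by
        have h5 : cB (PP a) T.2.1 + cB (PP a) T.2.1 = 0 := two_self _
        calc cC (PP a) T.2.2 + cC (PP a) (w₀ T.2.1) =
              (cB (PP a) T.2.1 + cB (PP a) T.2.1) +
                (cC (PP a) T.2.2 + cC (PP a) (w₀ T.2.1)) := by rw [h5, zero_add]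
          _ = _ := by abel
      rw [h4]
      exact K.add_mem hA (K.add_mem hB h3)
    · intro T _ T' _ h
      obtain ⟨e1, e2, e3⟩ := cols_inj ha h
      refine Prod.ext e1 (Prod.ext e2 (ha ?_))
      rw [e2] at e3
      exact add_right_cancel e3
  calc E.card ≤ (EA ∪ EB).card := Finset.card_le_card hsub
    _ ≤ EA.card + EB.card := Finset.card_union_le _ _
    _ ≤ 2 * Nat.card K := by omega

/-- **Independent exchanges.**  There is a group of at most `2 r` patterns such that every
circuit that is symmetric under its independent action on rows, inner indices and columns has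
at least `r ^ 3 s ^ 2 / 16` gates. -/
theorem prod_bound (r : ℕ) (hr : 1 ≤ r) :
    ∃ Γ : AddSubgroup (Fin r → ZMod 2), Nat.card Γ ≤ 2 * r ∧
      ∀ (F : Type) [Field F] (s : ℕ) (Z G : Type) [Fintype Z] [Fintype G]
        (C : Circ (Vr r s Z) F G) (val : G → MvPolynomial (Vr r s Z) F)
        (out : Ix r s Z → Ix r s Z → G), Computes C val out →
        (∀ x ∈ Γ, ∀ y ∈ Γ, ∀ z ∈ Γ, Symm C out (sw x) (sw y) (sw z)) →
        r ^ 3 * s ^ 2 ≤ 16 * gates C := by
  obtain ⟨κ, hκ, a, ha, ha0⟩ := exists_columns r hr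
  refine ⟨code a, (card_code a).trans hκ, ?_⟩
  intro F _ s Z G _ _ C val out hC hsym
  have h := main_bound (PP a) out hC
    (fun μ => hsym _ (enc_mem a μ.1) _ (enc_mem a μ.2.1) _ (enc_mem a μ.2.2))
    Finset.univ (fun T _ => ?_) 2 (fun K E _ hE => count_prod ha K E hE)
  · rw [Finset.card_univ, Fintype.card_prod, Fintype.card_prod, Fintype.card_fin] at h
    calc r ^ 3 * s ^ 2 = r * (r * r) * s ^ 2 := by ring
      _ ≤ 8 * 2 * gates C := h
      _ = 16 * gates C := by ring
  · obtain ⟨c, hc⟩ : ∃ c, a T.2.1 c ≠ 0 := by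
      by_contra hcon
      push Not at hcon
      exact ha0 T.2.1 (funext hcon)
    have hc1 : a T.2.1 c = 1 := by
      rcases z2_cases (a T.2.1 c) with h' | h'
      · exact absurd h' hc
      · exact h'
    refine ⟨(0, Pi.single c 1, 0), ?_, ?_, ?_⟩
    · rw [PP_apply]; simp
    · rw [PP_apply]
      show enc a (Pi.single c 1) T.2.1 = 1
      rw [enc_single, hc1]
    · rw [PP_apply]; simp

end Pool.Agent.H522R3.SW
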